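import Pool.Agent.Lib.MP_7cd5ec_co.LB.All

/-!
# MP_7cd5ec_co: a lower bound for `f(s,t)`

A digraph on the vertices `Fin n` is given by a relation `Adj` (`Adj v w`: there is an arc from `v` to
`w`), as in the frozen statement.
-/

set_option autoImplicit false

namespace Pool.Agent.SplitLBOld

/-- The digraph is `(s,t)`-splittable: there is a partition of the vertices into nonempty sets `A`, `Aᶜ`
such that all outdegrees in `D[A]` are at least `s` and all outdegrees in `D[Aᶜ]` are at least `t`. -/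
def Splittable {n : ℕ} (Adj : Fin n → Fin n → Prop) (s t : ℕ) : Prop :=
  ∃ A : Set (Fin n), A.Nonempty ∧ Aᶜ.Nonempty ∧
    (∀ v ∈ A, s ≤ {w : Fin n | w ∈ A ∧ Adj v w}.ncard) ∧
    (∀ v ∈ Aᶜ, t ≤ {w : Fin n | w ∈ Aᶜ ∧ Adj v w}.ncard)

/-- There is a constant `c > 0` such that for all `1 ≤ s ≤ t` there is a simple digraph which is not
`(s,t)`-splittable and all of whose outdegrees are at least `m`, where
`m ≥ s + t - 1 + c min (s, sqrt (s log (2 t / s)))`.  So `f(s,t)`, if it exists, is at least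
`s + t + c min (s, sqrt (s log (2 t / s)))`. -/
theorem result : ∃ c : ℝ, 0 < c ∧ ∀ s t : ℕ, 1 ≤ s → s ≤ t →
    ∃ (n m : ℕ) (Adj : Fin n → Fin n → Prop), 0 < n ∧ (∀ v, ¬ Adj v v) ∧
      (∀ v, m ≤ {w : Fin n | Adj v w}.ncard) ∧ ¬ Splittable Adj s t ∧
      (s : ℝ) + t + c * min (s : ℝ) (Real.sqrt (s * Real.log (2 * t / s))) ≤ m + 1 := by
  obtain ⟨c, hc, h⟩ := Pool.Agent.SplitLB.aFin
  refine ⟨c, hc, fun s t hs hst => ?_⟩
  obtain ⟨m, ⟨n, Adj, hn, hirr, hdeg, hsp⟩, hm⟩ := h s t hs hst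
  exact ⟨n, m, Adj, hn, hirr, hdeg, hsp, hm⟩

end Pool.Agent.SplitLBOld
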